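import Pool.Agent.V7H47.LB.Spec
import Pool.Agent.Helper717.Hull2

/-!
# Lower bound for convex translation covers: the mixed area (piece MIX)
-/

set_option autoImplicit false

open Real Set MeasureTheory

namespace Pool.Agent.V7H34.LB

open Pool.Agent.V7H47.TC (Plane)
open Pool.Agent.V7H47.LB
open Pool.Agent.Helper717.Hull1
open Pool.Agent.Helper717.Hull2

/-- the open triangle -/
def OT (a b c : Plane) : Set Plane :=
  {q | 0 < orient a b q ∧ 0 < orient b c q ∧ 0 < orient c a q}

lemma cont_orient (a b : Plane) : Continuous fun q : Plane => orient a b q := by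
  unfold orient
  fun_prop

lemma OT_open (a b c : Plane) : IsOpen (OT a b c) := by
  have h1 : IsOpen {q : Plane | 0 < orient a b q} := isOpen_lt continuous_const (cont_orient a b)
  have h2 : IsOpen {q : Plane | 0 < orient b c q} := isOpen_lt continuous_const (cont_orient b c)
  have h3 : IsOpen {q : Plane | 0 < orient c a q} := isOpen_lt continuous_const (cont_orient c a)
  have h4 : OT a b c = {q : Plane | 0 < orient a b q} ∩ ({q : Plane | 0 < orient b c q} ∩
      {q : Plane | 0 < orient c a q}) := rfl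
  rw [h4]
  exact h1.inter (h2.inter h3)

lemma OT_vol (a b c : Plane) (h : 0 < orient a b c) :
    ENNReal.ofReal (orient a b c / 2) ≤ volume (OT a b c) := by
  have hab : a ≠ b := by
    rintro rfl
    rw [or_self1] at h
    exact lt_irrefl _ h
  have hbc : b ≠ c := by
    rintro rfl
    rw [or_self2] at h
    exact lt_irrefl _ h
  have hca : c ≠ a := by
    rintro rfl
    rw [or_self3] at h
    exact lt_irrefl _ h
  rw [← tri_vol_pos a b c h]
  have hsub : convexHull ℝ ({a, b, c} : Set Plane) ⊆ OT a b c ∪ ({q : Plane | orient a b q = 0} ∪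
      ({q : Plane | orient b c q = 0} ∪ {q : Plane | orient c a q = 0})) := by
    intro q hq
    rw [tri_iff a b c q h] at hq
    obtain ⟨h1, h2, h3⟩ := hq
    rcases h1.lt_or_eq with h1 | h1
    · rcases h2.lt_or_eq with h2 | h2
      · rcases h3.lt_or_eq with h3 | h3
        · exact Or.inl ⟨h1, h2, h3⟩
        · exact Or.inr (Or.inr (Or.inr h3.symm))
      · exact Or.inr (Or.inr (Or.inl h2.symm))
    · exact Or.inr (Or.inl h1.symm)
  refine (measure_mono hsub).trans ((measure_union_le _ _).trans ?_)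
  have hnull : volume ({q : Plane | orient a b q = 0} ∪
      ({q : Plane | orient b c q = 0} ∪ {q : Plane | orient c a q = 0})) = 0 := by
    rw [measure_union_null_iff, measure_union_null_iff]
    exact ⟨line_null a b hab, line_null b c hbc, line_null c a hca⟩
  rw [hnull, add_zero]

/-- the coordinates of a point of the open triangle -/
lemma OT_par {a b c q : Plane} (h : 0 < orient a b c) (hq : q ∈ OT a b c) :
    ∃ l s : ℝ, 0 < l ∧ l < 1 ∧ 0 < s ∧ s < 1 ∧
      q = (1 - s) • a + s • ((1 - l) • b + l • c) := by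
  obtain ⟨h1, h2, h3⟩ := hq
  set T := orient a b c with hT
  have hsum := or_sum a b c q
  rw [← hT] at hsum
  set x := orient b c q with hx
  set y := orient c a q with hy
  set z := orient a b q with hz
  have hb := bary a b c q h.ne'
  rw [← hx, ← hy, ← hz, ← hT] at hb
  have hyz : 0 < y + z := by linarith
  refine ⟨z / (y + z), (y + z) / T, by positivity, (div_lt_one hyz).2 (by linarith),
    by positivity, (div_lt_one h).2 (by linarith), ?_⟩
  have e1 : 1 - (y + z) / T = x / T := by
    field_simp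
    linarith
  have e2 : (y + z) / T * (1 - z / (y + z)) = y / T := by
    field_simp
    ring
  have e3 : (y + z) / T * (z / (y + z)) = z / T := by
    field_simp
  rw [smul_add, smul_smul, smul_smul, e1, e2, e3, ← add_assoc]
  exact hb

lemma D_add (t : ℝ) (x y : Plane) : D t (x + y) = D t x + D t y := by
  simp only [D, PiLp.add_apply]; ring

lemma D_smul (t s : ℝ) (x : Plane) : D t (s • x) = s * D t x := by
  simp only [D, PiLp.smul_apply, smul_eq_mul]; ring

lemma D_zero (t : ℝ) : D t (0 : Plane) = 0 := by simp [D]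

lemma ea_0 (t c α : ℝ) : ea t c α 0 = c * cos t - α * sin t := by
  simp [ea, pol, cos_add_pi_div_two]
  ring

lemma ea_1 (t c α : ℝ) : ea t c α 1 = c * sin t + α * cos t := by
  simp [ea, pol, sin_add_pi_div_two]

lemma D_ea (t c α : ℝ) : D t (ea t c α) = c := by
  have h := sin_sq_add_cos_sq t
  rw [D, ea_0, ea_1]
  linear_combination c * h

lemma or_ea (t c α β : ℝ) : orient 0 (ea t c α) (ea t c β) = c * (β - α) := by
  have h := sin_sq_add_cos_sq t
  unfold orient
  rw [ea_0, ea_1, ea_0, ea_1]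
  simp only [PiLp.zero_apply]
  linear_combination (c * (β - α)) * h

lemma or_ea' (t c α β : ℝ) (Q : Plane) :
    orient Q (ea t c β) (ea t c α) = (D t Q - c) * (β - α) := by
  have h := sin_sq_add_cos_sq t
  unfold orient D
  rw [ea_0, ea_1, ea_0, ea_1]
  linear_combination (-c * (β - α)) * h

/-- a point on an edge -/
lemma seg_ea (t c α β l : ℝ) :
    (1 - l) • ea t c α + l • ea t c β = ea t c ((1 - l) * α + l * β) := by
  ext i
  fin_cases i
  · simp only [Fin.zero_eta, PiLp.add_apply, PiLp.smul_apply, smul_eq_mul, ea_0]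
    ring
  · simp only [Fin.mk_one, PiLp.add_apply, PiLp.smul_apply, smul_eq_mul, ea_1]
    ring

lemma D_ea' (t' t c τ : ℝ) : D t' (ea t c τ) =
    c * (cos t' * cos t + sin t' * sin t) + τ * (sin t' * cos t - cos t' * sin t) := by
  rw [D, ea_0, ea_1]
  ring

lemma D_comb (t' t c α β τ : ℝ) : (β - α) * D t' (ea t c τ) =
    (β - τ) * D t' (ea t c α) + (τ - α) * D t' (ea t c β) := by
  rw [D_ea', D_ea', D_ea']
  ring

lemma ea_inj {t t' c c' τ τ' : ℝ} (hc : cos t = cos t') (hs : sin t = sin t')
    (h : ea t c τ = ea t' c' τ') : τ = τ' := by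
  have h0 := congrArg (fun v : Plane => v 0) h
  have h1 := congrArg (fun v : Plane => v 1) h
  simp only [ea_0, ea_1] at h0 h1
  rw [← hc, ← hs] at h0 h1
  have h2 := sin_sq_add_cos_sq t
  linear_combination (-sin t) * h0 + cos t * h1 - (τ - τ') * h2

lemma smul_inj {s : ℝ} (hs : s ≠ 0) {x y : Plane} (h : s • x = s • y) : x = y := by
  have h1 := congrArg (fun v : Plane => s⁻¹ • v) h
  simpa only [smul_smul, inv_mul_cancel₀ hs, one_smul] using h1

theorem t_MIX : S_MIX := by
  intro n K hKc hKx h0 t c α β Q hQ hE hle hne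
  -- heights of the edges
  have hH : ∀ i j τ, α j ≤ τ → τ ≤ β j → D (t i) (ea (t j) (c j) τ) ≤ c i := by
    intro i j τ h1 h2
    have h3 := D_comb (t i) (t j) (c j) (α j) (β j) τ
    obtain ⟨h4, h5⟩ := hle i j
    have h6 := (hE j).2.1
    have h7 : (β j - α j) * D (t i) (ea (t j) (c j) τ) ≤ (β j - α j) * c i := by
      rw [h3]
      nlinarith [mul_le_mul_of_nonneg_left h4 (sub_nonneg.2 h2),
        mul_le_mul_of_nonneg_left h5 (sub_nonneg.2 h1)]
    exact le_of_mul_le_mul_left h7 (by linarith)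
  have third : ∀ i j τ, i ≠ j → α j < τ → τ < β j → D (t i) (ea (t j) (c j) τ) = c i →
      (cos (t i) = cos (t j) ∧ sin (t i) = sin (t j) ∧ Q i = Q j ∧
        (β i ≤ α j ∨ β j ≤ α i)) := by
    intro i j τ hij h1 h2 h3
    have h4 := D_comb (t i) (t j) (c j) (α j) (β j) τ
    rw [h3] at h4
    obtain ⟨h5, h6⟩ := hle i j
    rcases hne i j hij with h | h | h
    · exfalso
      nlinarith [mul_lt_mul_of_pos_left h (sub_pos.2 h2),
        mul_le_mul_of_nonneg_left h6 (sub_pos.2 h1).le]
    · exfalso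
      nlinarith [mul_lt_mul_of_pos_left h (sub_pos.2 h1),
        mul_le_mul_of_nonneg_left h5 (sub_pos.2 h2).le]
    · exact h
  have clash : ∀ i j τ τ', i ≠ j → α i < τ → τ < β i → α j < τ' → τ' < β j →
      ea (t i) (c i) τ = ea (t j) (c j) τ' → False := by
    intro i j τ τ' hij h1 h2 h3 h4 h5
    have h6 : D (t i) (ea (t j) (c j) τ') = c i := by rw [← h5, D_ea]
    obtain ⟨h7, h8, -, h9⟩ := third i j τ' hij h3 h4 h6
    have h10 := ea_inj h7 h8 h5
    rcases h9 with h9 | h9 <;> linarith
  -- the points of the edges are in `K`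
  have hsegK : ∀ i τ, α i ≤ τ → τ ≤ β i → ea (t i) (c i) τ ∈ K := by
    intro i τ h1 h2
    obtain ⟨-, h3, h4, h5⟩ := hE i
    have h6 : 0 < β i - α i := by linarith
    have h7 := seg_ea (t i) (c i) (α i) (β i) ((τ - α i) / (β i - α i))
    have h8 : (1 - (τ - α i) / (β i - α i)) * α i + (τ - α i) / (β i - α i) * β i = τ := by
      field_simp
      ring
    rw [h8] at h7
    rw [← h7]
    have h9 : (τ - α i) / (β i - α i) ≤ 1 := (div_le_one h6).2 (by linarith)
    have h10 : 0 ≤ (τ - α i) / (β i - α i) := div_nonneg (by linarith) h6.le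
    exact hKx h4 h5 (by linarith) h10 (by ring)
  -- the triangles
  set U : Fin n → Set Plane := fun i => OT 0 (ea (t i) (c i) (α i)) (ea (t i) (c i) (β i)) with hU
  set V : Fin n → Set Plane := fun i =>
    {q | c i < D (t i) (Q i) ∧ q ∈ OT (Q i) (ea (t i) (c i) (β i)) (ea (t i) (c i) (α i))} with hV
  have hUpar : ∀ i q, q ∈ U i → ∃ s τ : ℝ, 0 < s ∧ s < 1 ∧ α i < τ ∧ τ < β i ∧
      q = s • ea (t i) (c i) τ := by
    intro i q hq
    obtain ⟨h1, h2, -, -⟩ := hE i
    have h3 : 0 < orient 0 (ea (t i) (c i) (α i)) (ea (t i) (c i) (β i)) := by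
      rw [or_ea]
      exact mul_pos h1 (by linarith)
    obtain ⟨l, s, hl0, hl1, hs0, hs1, hq'⟩ := OT_par h3 hq
    rw [seg_ea, smul_zero, zero_add] at hq'
    refine ⟨s, _, hs0, hs1, ?_, ?_, hq'⟩ <;> nlinarith
  have hVpar : ∀ i q, q ∈ V i → c i < D (t i) (Q i) ∧ ∃ s τ : ℝ, 0 < s ∧ s < 1 ∧ α i < τ ∧ τ < β i ∧
      q = (1 - s) • ea (t i) (c i) τ + s • Q i := by
    intro i q hq
    obtain ⟨h0, hq⟩ := hq
    refine ⟨h0, ?_⟩
    obtain ⟨h1, h2, -, -⟩ := hE i
    have h3 : 0 < orient (Q i) (ea (t i) (c i) (β i)) (ea (t i) (c i) (α i)) := by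
      rw [or_ea']
      exact mul_pos (by linarith) (by linarith)
    obtain ⟨l, s, hl0, hl1, hs0, hs1, hq'⟩ := OT_par h3 hq
    rw [seg_ea] at hq'
    refine ⟨1 - s, (1 - l) * β i + l * α i, by linarith, by linarith, by nlinarith, by nlinarith,
      ?_⟩
    rw [hq', add_comm]
    congr 2
    ring
  -- disjointness
  have hUV : ∀ i j q, q ∈ U i → q ∈ V j → False := by
    intro i j q h1 h2
    obtain ⟨s, τ, hs0, hs1, ht1, ht2, hq⟩ := hUpar i q h1
    obtain ⟨hc, s', τ', hs0', hs1', ht1', ht2', hq'⟩ := hVpar j q h2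
    have h3 := hH j i τ ht1.le ht2.le
    have h4 : D (t j) q = s * D (t j) (ea (t i) (c i) τ) := by rw [hq, D_smul]
    have h5 : D (t j) q = (1 - s') * c j + s' * D (t j) (Q j) := by
      rw [hq', D_add, D_smul, D_smul, D_ea]
    have h6 := (hE j).1
    nlinarith [mul_le_mul_of_nonneg_left h3 hs0.le]
  have hUU : ∀ i j, i ≠ j → ∀ q, q ∈ U i → q ∈ U j → False := by
    intro i j hij q h1 h2
    obtain ⟨s, τ, hs0, hs1, ht1, ht2, hq⟩ := hUpar i q h1
    obtain ⟨s', τ', hs0', hs1', ht1', ht2', hq'⟩ := hUpar j q h2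
    have h3 := hH j i τ ht1.le ht2.le
    have h3' := hH i j τ' ht1'.le ht2'.le
    have h4 : D (t j) q = s * D (t j) (ea (t i) (c i) τ) := by rw [hq, D_smul]
    have h5 : D (t j) q = s' * c j := by rw [hq', D_smul, D_ea]
    have h4' : D (t i) q = s' * D (t i) (ea (t j) (c j) τ') := by rw [hq', D_smul]
    have h5' : D (t i) q = s * c i := by rw [hq, D_smul, D_ea]
    have h6 := (hE j).1
    have h6' := (hE i).1
    have h7 : s' * c j ≤ s * c j := by
      rw [← h5, h4]
      exact mul_le_mul_of_nonneg_left h3 hs0.le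
    have h8 : s * c i ≤ s' * c i := by
      rw [← h5', h4']
      exact mul_le_mul_of_nonneg_left h3' hs0'.le
    have h9 : s = s' := le_antisymm (le_of_mul_le_mul_right h8 h6') (le_of_mul_le_mul_right h7 h6)
    subst h9
    rw [hq] at hq'
    exact clash i j τ τ' hij ht1 ht2 ht1' ht2' (smul_inj hs0.ne' hq')
  have hVV : ∀ i j, i ≠ j → ∀ q, q ∈ V i → q ∈ V j → False := by
    intro i j hij q h1 h2
    obtain ⟨hc, s, τ, hs0, hs1, ht1, ht2, hq⟩ := hVpar i q h1
    obtain ⟨hc', s', τ', hs0', hs1', ht1', ht2', hq'⟩ := hVpar j q h2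
    have h3 := hH j i τ ht1.le ht2.le
    have h3' := hH i j τ' ht1'.le ht2'.le
    have h4 : D (t j) q = (1 - s) * D (t j) (ea (t i) (c i) τ) + s * D (t j) (Q i) := by
      rw [hq, D_add, D_smul, D_smul]
    have h5 : D (t j) q = (1 - s') * c j + s' * D (t j) (Q j) := by
      rw [hq', D_add, D_smul, D_smul, D_ea]
    have h4' : D (t i) q = (1 - s') * D (t i) (ea (t j) (c j) τ') + s' * D (t i) (Q j) := by
      rw [hq', D_add, D_smul, D_smul]
    have h5' : D (t i) q = (1 - s) * c i + s * D (t i) (Q i) := by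
      rw [hq, D_add, D_smul, D_smul, D_ea]
    have h6 := (hQ j).2 _ (hQ i).1
    have h6' := (hQ i).2 _ (hQ j).1
    have h7 : s' ≤ s := by
      have h : s' * (D (t j) (Q j) - c j) ≤ s * (D (t j) (Q j) - c j) := by
        nlinarith [mul_le_mul_of_nonneg_left h3 (sub_pos.2 hs1).le,
          mul_le_mul_of_nonneg_left h6 hs0.le]
      exact le_of_mul_le_mul_right h (by linarith)
    have h8 : s ≤ s' := by
      have h : s * (D (t i) (Q i) - c i) ≤ s' * (D (t i) (Q i) - c i) := by
        nlinarith [mul_le_mul_of_nonneg_left h3' (sub_pos.2 hs1').le,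
          mul_le_mul_of_nonneg_left h6' hs0'.le]
      exact le_of_mul_le_mul_right h (by linarith)
    have h9 : s = s' := le_antisymm h8 h7
    subst h9
    have h10 : D (t i) (ea (t j) (c j) τ') = c i := by
      apply le_antisymm h3'
      have h : (1 - s) * c i ≤ (1 - s) * D (t i) (ea (t j) (c j) τ') := by
        nlinarith [mul_le_mul_of_nonneg_left h6' hs0.le]
      exact le_of_mul_le_mul_left h (by linarith)
    obtain ⟨-, -, h11, -⟩ := third i j τ' hij ht1' ht2' h10
    rw [hq, h11] at hq'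
    have h12 := add_right_cancel hq'
    exact clash i j τ τ' hij ht1 ht2 ht1' ht2' (smul_inj (by linarith) h12)
  -- the triangles are in `K`
  have hUK : ∀ i, U i ⊆ K := by
    intro i q hq
    obtain ⟨s, τ, hs0, hs1, ht1, ht2, rfl⟩ := hUpar i q hq
    have h1 := hKx h0 (hsegK i τ ht1.le ht2.le) (sub_pos.2 hs1).le hs0.le (by ring)
    rwa [smul_zero, zero_add] at h1
  have hVK : ∀ i, V i ⊆ K := by
    intro i q hq
    obtain ⟨-, s, τ, hs0, hs1, ht1, ht2, rfl⟩ := hVpar i q hq
    exact hKx (hsegK i τ ht1.le ht2.le) (hQ i).1 (sub_pos.2 hs1).le hs0.le (by ring)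
  have hUm : ∀ i, MeasurableSet (U i) := fun i => (OT_open _ _ _).measurableSet
  have hVm : ∀ i, MeasurableSet (V i) := by
    intro i
    by_cases h : c i < D (t i) (Q i)
    · have h1 : V i = OT (Q i) (ea (t i) (c i) (β i)) (ea (t i) (c i) (α i)) := by
        ext q
        exact ⟨fun h => h.2, fun h' => ⟨h, h'⟩⟩
      rw [h1]
      exact (OT_open _ _ _).measurableSet
    · have h1 : V i = ∅ := by
        ext q
        exact ⟨fun h' => absurd h'.1 h, fun h' => absurd h' (Set.notMem_empty q)⟩
      rw [h1]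
      exact MeasurableSet.empty
  have hvol : ∀ i, ENNReal.ofReal ((β i - α i) * D (t i) (Q i) / 2) ≤ volume (U i ∪ V i) := by
    intro i
    obtain ⟨h1, h2, h3, -⟩ := hE i
    have hd : Disjoint (U i) (V i) := Set.disjoint_left.2 fun q h4 h5 => hUV i i q h4 h5
    rw [measure_union hd (hVm i)]
    have h4 : 0 < orient 0 (ea (t i) (c i) (α i)) (ea (t i) (c i) (β i)) := by
      rw [or_ea]
      exact mul_pos h1 (by linarith)
    have h5 := OT_vol _ _ _ h4
    rw [or_ea] at h5
    have h6 : c i ≤ D (t i) (Q i) := by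
      have h := (hQ i).2 _ h3
      rwa [D_ea] at h
    rcases h6.lt_or_eq with h6 | h6
    · have h7 : 0 < orient (Q i) (ea (t i) (c i) (β i)) (ea (t i) (c i) (α i)) := by
        rw [or_ea']
        exact mul_pos (by linarith) (by linarith)
      have h8 := OT_vol _ _ _ h7
      rw [or_ea'] at h8
      have h9 : OT (Q i) (ea (t i) (c i) (β i)) (ea (t i) (c i) (α i)) ⊆ V i :=
        fun q hq => ⟨h6, hq⟩
      refine le_trans ?_ (add_le_add h5 (h8.trans (measure_mono h9)))
      rw [← ENNReal.ofReal_add]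
      · apply ENNReal.ofReal_le_ofReal
        apply le_of_eq
        ring
      · have := mul_pos h1 (sub_pos.2 h2)
        linarith
      · have := mul_pos (sub_pos.2 h6) (sub_pos.2 h2)
        linarith
    · refine le_trans ?_ (h5.trans le_self_add)
      rw [← h6]
      apply ENNReal.ofReal_le_ofReal
      apply le_of_eq
      ring
  calc ENNReal.ofReal (∑ i, (β i - α i) * D (t i) (Q i) / 2)
      ≤ ∑ i, ENNReal.ofReal ((β i - α i) * D (t i) (Q i) / 2) := by
        apply le_of_eq
        apply ENNReal.ofReal_sum_of_nonneg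
        intro i _
        obtain ⟨h1, h2, h3, -⟩ := hE i
        have h6 : c i ≤ D (t i) (Q i) := by
          have h := (hQ i).2 _ h3
          rwa [D_ea] at h
        have := mul_nonneg (sub_pos.2 h2).le (h1.le.trans h6)
        linarith
    _ ≤ ∑ i, volume (U i ∪ V i) := Finset.sum_le_sum fun i _ => hvol i
    _ = volume (⋃ i, U i ∪ V i) := by
        rw [measure_iUnion, tsum_fintype]
        · intro i j hij
          refine Set.disjoint_left.2 fun q h1 h2 => ?_
          rcases h1 with h1 | h1 <;> rcases h2 with h2 | h2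
          · exact hUU i j hij q h1 h2
          · exact hUV i j q h1 h2
          · exact hUV j i q h2 h1
          · exact hVV i j hij q h1 h2
        · exact fun i => (hUm i).union (hVm i)
    _ ≤ volume K := measure_mono (Set.iUnion_subset fun i => Set.union_subset (hUK i) (hVK i))

end Pool.Agent.V7H34.LB
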